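import Pool.Agent.V1215.NI.Asm6
import Pool.Agent.V1215.NI.Asm7

/-!
# If the injective envelope `I(A)` norms `I(A) ⋊_r G`, then `A` norms `I(A) ⋊_r G` and `A ⋊_r G`

Idea of the proof.  Let `X` be a positive matrix over `B = I(A) ⋊_r G` and `m < ‖X‖`. Compressing by
finitely many unitaries `u_s`, `s ∈ F`, one gets a selfadjoint matrix `W = m - (E (u_s* X_il u_t))` over
`I(A)` which is not positive. By rigidity and injectivity of `I(A)`, the completely positive maps
`Θ : I(A) → B(H)` which extend irreducible representations of `A` detect positivity of matrices over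
`I(A)`, even after multiplication with a suitable element of `A`.

* Suppose that `W` is not positive under such a `Θ` which extends an irreducible representation `π` of
  `A` on a space of large dimension. The Kadison transitivity theorem for the representations
  `π ∘ α_s⁻¹`, `s ∈ F`, (some of which may be equivalent) gives a column `c` of norm at most one over
  `A` which moves one vector close to a given vector in each of the representations. This uses the
  large dimension: the target vectors may be put into general position. Then `c* X c` has large norm.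
* Otherwise there is a nonzero ideal of `A` all of whose irreducible representations have dimension at
  most some `N`. The irreducible representations of `I(A)` living on it have the same bound, and those
  of maximal dimension `n` remain irreducible when restricted to `A`. As `I(A)` norms `B`, there is a
  column `c` over `I(A)` of norm at most one such that `c* X c` has large norm. In generic irreducible
  representations `π` of `I(A)` every operator which intertwines `π ∘ β_s⁻¹` and `π ∘ β_t⁻¹` on `A`
  intertwines them on `I(A)` (again by rigidity). Hence `c` may be replaced by a column over `A`, of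
  norm at most one, having the same image in the finitely many finite dimensional representations.
-/

set_option autoImplicit false

open scoped CStarAlgebra ComplexOrder

namespace Pool.Agent.Results.MP_7d7ee1_an.NormingByTheAlgebra

universe u v w z

open Pool.Agent.W661.Nrm

/-- **If `I = I(A)` norms `B = I(A) ⋊_r G`, then `A` norms `B` (Q1), `A` norms `A ⋊_r G` (Q2), and `A`
norms every C*-algebra between `A` and `B`.** -/
theorem result {A I : Type u} {B : Type v} {G : Type w} [CStarAlgebra A] [PartialOrder A]
    [StarOrderedRing A] [CStarAlgebra I] [PartialOrder I] [StarOrderedRing I] [CStarAlgebra B]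
    [PartialOrder B] [StarOrderedRing B] [Group G] (α : G →* (A ≃⋆ₐ[ℂ] A))
    (β : G →* (I ≃⋆ₐ[ℂ] I)) (j : A →⋆ₐ[ℂ] I) (hj : IsInjectiveEnvelope j)
    (hβ : ∀ g a, β g (j a) = j (α g a)) (ι : I →⋆ₐ[ℂ] B) (u : G →* unitary B) (E : B →L[ℂ] I)
    (hB : IsReducedCrossedProduct β ι u E) (hN : Norms ι) :
    Norms (ι.comp j) ∧
    (∀ (D : Type z) [CStarAlgebra D] [PartialOrder D] [StarOrderedRing D] (ι' : A →⋆ₐ[ℂ] D)
      (u' : G →* unitary D) (E' : D →L[ℂ] A), IsReducedCrossedProduct α ι' u' E' → Norms ι') ∧
    (∀ (D : Type z) [CStarAlgebra D] [PartialOrder D] [StarOrderedRing D] (ι' : A →⋆ₐ[ℂ] D)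
      (κ : D →⋆ₐ[ℂ] B), Function.Injective κ → (∀ a, κ (ι' a) = ι (j a)) → Norms ι') := by
  have h1 : Norms (ι.comp j) := Pool.Agent.V1215.NI.main hβ hB hj hN
  have h3 : ∀ (D : Type z) [CStarAlgebra D] [PartialOrder D] [StarOrderedRing D]
      (ι' : A →⋆ₐ[ℂ] D) (κ : D →⋆ₐ[ℂ] B), Function.Injective κ → (∀ a, κ (ι' a) = ι (j a)) →
      Norms ι' := fun D _ _ _ ι' κ hκ h =>
    Pool.Agent.V1215.NI.norms_sub (ι.comp j) h1 κ hκ ι' h
  refine ⟨h1, ?_, h3⟩
  intro D _ _ _ ι' u' E' hD
  obtain ⟨κ, hκ, hκι, -⟩ := Pool.Agent.V1215.NI.embed hβ hj.inj hB hD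
  exact h3 D ι' κ hκ hκι

end Pool.Agent.Results.MP_7d7ee1_an.NormingByTheAlgebra
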